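import Pool.Agent.Y395.SP.Stm
import Pool.Agent.Y578.Spl.Main

set_option autoImplicit false

/-! SP-WS: the working set bound of Sleator and Tarjan for splaying. Job of helper395, done by
helper232. -/

namespace Pool.Agent.Y232.SP.WS

open Pool.Agent.H581R2.Splay Pool.Agent.TH49.Spl Pool.Agent.Y395.SP Tr

/-- the set of the keys requested since the previous request of `a` -/
def tw (h : List ℕ) (a : ℕ) : Finset ℕ := (h.takeWhile fun y => decide (y ≠ a)).toFinset

theorem ws_eq (h : List ℕ) (a : ℕ) : ws h a = (tw h a).card := rfl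

theorem tw_cons_self (h : List ℕ) (a : ℕ) : tw (a :: h) a = ∅ := by
  simp [tw]

theorem tw_cons_ne {y a : ℕ} (h : List ℕ) (hy : y ≠ a) : tw (y :: h) a = insert y (tw h a) := by
  simp [tw, hy]

theorem tw_self (h : List ℕ) (a : ℕ) : a ∉ tw h a := by
  intro ha
  unfold tw at ha
  rw [List.mem_toFinset] at ha
  have := List.mem_takeWhile_imp ha
  simp at this

theorem tw_sub (h : List ℕ) (a : ℕ) : ∀ y ∈ tw h a, y ∈ h := by
  intro y hy
  unfold tw at hy
  rw [List.mem_toFinset] at hy
  exact (List.takeWhile_sublist _).subset hy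

/-- of two keys one was requested later -/
theorem tw_cmp (h : List ℕ) : ∀ a b : ℕ, a ∈ h → b ∈ h → a ≠ b →
    (tw h a ⊆ tw h b ∧ a ∈ tw h b) ∨ (tw h b ⊆ tw h a ∧ b ∈ tw h a) := by
  induction h with
  | nil => intro a b ha; simp at ha
  | cons y h ih =>
    intro a b ha hb hab
    by_cases hya : y = a
    · subst hya
      left
      rw [tw_cons_self, tw_cons_ne h hab]
      exact ⟨Finset.empty_subset _, Finset.mem_insert_self _ _⟩
    · by_cases hyb : y = b
      · subst hyb
        right
        rw [tw_cons_self, tw_cons_ne h hya]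
        exact ⟨Finset.empty_subset _, Finset.mem_insert_self _ _⟩
      · have ha' : a ∈ h := by
          rcases List.mem_cons.1 ha with h1 | h1
          · exact absurd h1.symm hya
          · exact h1
        have hb' : b ∈ h := by
          rcases List.mem_cons.1 hb with h1 | h1
          · exact absurd h1.symm hyb
          · exact h1
        rw [tw_cons_ne h hya, tw_cons_ne h hyb]
        rcases ih a b ha' hb' hab with ⟨h1, h2⟩ | ⟨h1, h2⟩
        · exact Or.inl ⟨Finset.insert_subset_insert _ h1, Finset.mem_insert_of_mem h2⟩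
        · exact Or.inr ⟨Finset.insert_subset_insert _ h1, Finset.mem_insert_of_mem h2⟩

theorem ws_inj (h : List ℕ) : Set.InjOn (ws h) (h.toFinset : Set ℕ) := by
  intro a ha b hb hab
  by_contra hne
  rw [Finset.mem_coe, List.mem_toFinset] at ha hb
  rw [ws_eq, ws_eq] at hab
  rcases tw_cmp h a b ha hb hne with ⟨h1, h2⟩ | ⟨h1, h2⟩
  · have h3 : tw h a = tw h b := Finset.eq_of_subset_of_card_le h1 hab.ge
    exact tw_self h a (by rw [h3]; exact h2)
  · have h3 : tw h b = tw h a := Finset.eq_of_subset_of_card_le h1 hab.le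
    exact tw_self h b (by rw [h3]; exact h2)

/-- the weights -/
noncomputable def wg (n : ℕ) (h : List ℕ) (a : ℕ) : ℝ :=
  if a ∈ h then 1 / ((ws h a : ℝ) + 1) ^ 2 else 1 / (n : ℝ) ^ 2

theorem wg_pos {n : ℕ} (hn : 1 ≤ n) (h : List ℕ) (a : ℕ) : 0 < wg n h a := by
  have : (0 : ℝ) < n := by exact_mod_cast hn
  unfold wg
  split_ifs <;> positivity

theorem sum_sq (N : ℕ) : ∑ k ∈ Finset.range (N + 1), 1 / ((k : ℝ) + 1) ^ 2 ≤ 2 - 1 / ((N : ℝ) + 1) := by
  induction N with
  | zero => norm_num
  | succ N ih =>
    rw [Finset.sum_range_succ]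
    have h1 : 1 / (((N + 1 : ℕ) : ℝ) + 1) ^ 2 ≤ 1 / ((N : ℝ) + 1) - 1 / (((N + 1 : ℕ) : ℝ) + 1) := by
      push_cast
      rw [div_sub_div _ _ (by positivity) (by positivity), div_le_div_iff₀ (by positivity)
        (by positivity)]
      have : (0 : ℝ) ≤ N := by positivity
      nlinarith [mul_nonneg this this]
    linarith

/-- the total weight -/
theorem wg_total {n : ℕ} (hn : 1 ≤ n) (h : List ℕ) {S : Tr} (hb : IsBST S)
    (hlen : (keys S).length = n) : wt (wg n h) S ≤ 4 := by
  have nod : (keys S).Nodup := List.Pairwise.imp (fun {a b} h => by omega) hb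
  have hn' : (0 : ℝ) < n := by exact_mod_cast hn
  rw [wt_eq, ← List.sum_toFinset _ nod]
  have h1 : ∀ a ∈ (keys S).toFinset, wg n h a ≤
      (if a ∈ h then 1 / ((ws h a : ℝ) + 1) ^ 2 else 0) + 1 / (n : ℝ) ^ 2 := by
    intro a _
    have : (0 : ℝ) < 1 / (n : ℝ) ^ 2 := by positivity
    unfold wg
    split_ifs <;> linarith
  refine le_trans (Finset.sum_le_sum h1) ?_
  rw [Finset.sum_add_distrib, Finset.sum_const, List.toFinset_card_of_nodup nod, hlen, nsmul_eq_mul,
    ← Finset.sum_filter]
  have h2 : (n : ℝ) * (1 / (n : ℝ) ^ 2) ≤ 1 := by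
    have : (n : ℝ) * (1 / (n : ℝ) ^ 2) = 1 / n := by field_simp
    rw [this, div_le_one hn']
    exact_mod_cast hn
  have h3 : ∑ a ∈ (keys S).toFinset with a ∈ h, 1 / ((ws h a : ℝ) + 1) ^ 2 ≤
      ∑ a ∈ h.toFinset, 1 / ((ws h a : ℝ) + 1) ^ 2 := by
    refine Finset.sum_le_sum_of_subset_of_nonneg ?_ (fun _ _ _ => by positivity)
    intro a ha
    rw [Finset.mem_filter] at ha
    rw [List.mem_toFinset]
    exact ha.2
  have h4 : ∑ a ∈ h.toFinset, 1 / ((ws h a : ℝ) + 1) ^ 2 =
      ∑ k ∈ h.toFinset.image (ws h), 1 / ((k : ℝ) + 1) ^ 2 :=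
    (Finset.sum_image (f := fun k : ℕ => 1 / ((k : ℝ) + 1) ^ 2)
      (fun a ha b hb hab => ws_inj h ha hb hab)).symm
  have h5 : ∑ k ∈ h.toFinset.image (ws h), 1 / ((k : ℝ) + 1) ^ 2 ≤
      ∑ k ∈ Finset.range (h.length + 1), 1 / ((k : ℝ) + 1) ^ 2 := by
    refine Finset.sum_le_sum_of_subset_of_nonneg ?_ (fun _ _ _ => by positivity)
    intro k hk
    rw [Finset.mem_image] at hk
    obtain ⟨a, -, rfl⟩ := hk
    rw [Finset.mem_range, Nat.lt_succ_iff, ws_eq]
    refine le_trans (Finset.card_le_card (fun y hy => ?_)) (List.toFinset_card_le h)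
    rw [List.mem_toFinset]
    exact tw_sub h a y hy
  have h6 := sum_sq h.length
  have h7 : (0 : ℝ) < 1 / ((h.length : ℝ) + 1) := by positivity
  linarith

theorem ws_lt {K h : List ℕ} {a : ℕ} (hK : ∀ y ∈ h, y ∈ K) (ha : a ∈ K) :
    ws h a + 1 ≤ K.length := by
  have h1 : insert a (tw h a) ⊆ K.toFinset := by
    intro y hy
    rw [List.mem_toFinset]
    rcases Finset.mem_insert.1 hy with h2 | h2
    · rw [h2]; exact ha
    · exact hK y (tw_sub h a y h2)
  have h2 := Finset.card_le_card h1
  rw [Finset.card_insert_of_notMem (tw_self h a)] at h2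
  exact h2.trans (List.toFinset_card_le K)

theorem logb_inv_sq {c : ℝ} (_ : 0 < c) : Real.logb 2 (1 / c ^ 2) = -(2 * Real.logb 2 c) := by
  rw [one_div, Real.logb_inv, Real.logb_pow]
  push_cast
  ring

theorem wg_lower {n : ℕ} (hn : 1 ≤ n) {K h : List ℕ} (hlen : K.length = n)
    (hK : ∀ y ∈ h, y ∈ K) {a : ℕ} (ha : a ∈ K) :
    -(2 * Real.logb 2 n) ≤ Real.logb 2 (wg n h a) := by
  have hn' : (0 : ℝ) < n := by exact_mod_cast hn
  rw [← logb_inv_sq hn']
  refine logb_mono (by positivity) ?_
  unfold wg
  split_ifs with hh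
  · have h1 := ws_lt hK ha
    rw [hlen] at h1
    have h2 : ((ws h a : ℝ) + 1) ≤ n := by exact_mod_cast h1
    apply one_div_le_one_div_of_le (by positivity)
    exact pow_le_pow_left₀ (by positivity) h2 2
  · exact le_refl _

theorem sum_lower {f : ℕ → ℝ} {β : ℝ} (L : List ℕ) (h : ∀ a ∈ L, β ≤ f a) :
    (L.length : ℝ) * β ≤ (L.map f).sum := by
  induction L with
  | nil => simp
  | cons a L ih =>
    have h1 := ih (fun b hb => h b (by simp [hb]))
    have h2 := h a (by simp)
    simp only [List.map_cons, List.sum_cons, List.length_cons]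
    push_cast
    linarith

theorem psi_lower {w : ℕ → ℝ} (hw : ∀ a, 0 < w a) {β : ℝ} (hβ : β ≤ 0) (S : Tr)
    (h : ∀ a ∈ keys S, β ≤ Real.logb 2 (w a)) : ((keys S).length : ℝ) * β ≤ psi w S := by
  cases S with
  | nil => simp [psi, keys]
  | node a l r =>
    have h1 := Pool.Agent.Y578.Spl.pot_lower hw l
    have h2 := Pool.Agent.Y578.Spl.pot_lower hw r
    have h3 := sum_lower (f := fun a => Real.logb 2 (w a)) (keys l)
      (fun b hb => h b (by simp [keys, hb]))
    have h4 := sum_lower (f := fun a => Real.logb 2 (w a)) (keys r)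
      (fun b hb => h b (by simp [keys, hb]))
    simp only [psi, keys, List.length_append, List.length_cons]
    push_cast
    linarith

theorem logb_four : Real.logb 2 (4 : ℝ) = 2 := by
  have : (4 : ℝ) = 2 ^ (2 : ℝ) := by norm_num
  rw [this, Real.logb_rpow (by norm_num) (by norm_num)]

theorem run {n : ℕ} (hn : 1 ≤ n) {K : List ℕ} (hlen : K.length = n) (hK : K.Pairwise (· < ·))
    (X : List ℕ) : ∀ (S : Tr) (h : List ℕ), keys S = K → (∀ y ∈ h, y ∈ K) → (∀ x ∈ X, x ∈ K) →
      (costSplay S X : ℝ) + psi (wg n (X.reverse ++ h)) (runS S X) ≤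
        psi (wg n h) S + 8 * X.length + 6 * wsum h X +
          6 * (X.toFinset \ h.toFinset).card * Real.logb 2 n := by
  have hn' : (1 : ℝ) ≤ n := by exact_mod_cast hn
  have hL : (0 : ℝ) ≤ Real.logb 2 n := Real.logb_nonneg (by norm_num) hn'
  induction X with
  | nil =>
    intro S h _ _ _
    simp [costSplay, runS, wsum]
  | cons x X ih =>
    intro S h hS hh hX
    have hb : IsBST S := by unfold IsBST; rw [hS]; exact hK
    have hxS : x ∈ keys S := by rw [hS]; exact hX x (by simp)
    have hk := Pool.Agent.Y578.Spl.splay_keys hb hxS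
    have hi := ih (splay x S) (x :: h) (by rw [hk]; exact hS) (by
      intro y hy
      rcases List.mem_cons.1 hy with h1 | h1
      · rw [h1]; exact hX x (by simp)
      · exact hh y h1) (fun y hy => hX y (by simp [hy]))
    have hSn : ∃ a l0 r0, S = node a l0 r0 := by
      cases hSc : S with
      | nil => rw [hSc] at hxS; simp [keys] at hxS
      | node a l0 r0 => exact ⟨a, l0, r0, rfl⟩
    obtain ⟨a0, l0, r0, hSn⟩ := hSn
    have htot := wg_total hn h hb (by rw [hS]; exact hlen)
    have hlog : Real.logb 2 (wt (wg n h) S) ≤ 2 := by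
      have h1 : Real.logb 2 (wt (wg n h) S) ≤ Real.logb 2 4 :=
        logb_mono (by rw [hSn]; exact wt_pos (wg_pos hn h) _ _ _) htot
      exact h1.trans logb_four.le
    have hstep := Pool.Agent.Y578.Spl.pot_step (w := wg n h) (w' := wg n (x :: h))
      (wg_pos hn _) (wg_pos hn _) hb hxS hlog (by
        intro a ha
        unfold wg
        by_cases hc : a ∈ h
        · rw [if_pos hc, if_pos (List.mem_cons_of_mem _ hc)]
          have h1 : ws h a ≤ ws (x :: h) a := by
            rw [ws_eq, ws_eq, tw_cons_ne h (Ne.symm ha)]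
            exact Finset.card_le_card (Finset.subset_insert _ _)
          have h2 : (ws h a : ℝ) ≤ ws (x :: h) a := by exact_mod_cast h1
          apply one_div_le_one_div_of_le (by positivity)
          exact pow_le_pow_left₀ (by positivity) (by linarith) 2
        · have hc' : a ∉ x :: h := by
            rw [List.mem_cons]; tauto
          rw [if_neg hc, if_neg hc'])
    have hrev : (x :: X).reverse ++ h = X.reverse ++ (x :: h) := by simp
    have hws : (0 : ℝ) ≤ Real.logb 2 ((ws h x : ℝ) + 1) := by
      apply Real.logb_nonneg (by norm_num)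
      have : (0 : ℝ) ≤ ws h x := by positivity
      linarith
    rw [hrev]
    simp only [costSplay, runS, wsum, List.length_cons, List.toFinset_cons]
    simp only [List.toFinset_cons] at hi
    push_cast
    by_cases hxA : x ∈ h
    · have hxA' : x ∈ h.toFinset := List.mem_toFinset.2 hxA
      have e1 : insert x h.toFinset = h.toFinset := Finset.insert_eq_of_mem hxA'
      rw [e1] at hi
      have e2 : (insert x X.toFinset) \ h.toFinset = X.toFinset \ h.toFinset :=
        Finset.insert_sdiff_of_mem _ hxA'
      rw [e2]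
      have e3 : Real.logb 2 (wg n h x) = -(2 * Real.logb 2 ((ws h x : ℝ) + 1)) := by
        unfold wg
        rw [if_pos hxA, logb_inv_sq (by positivity)]
      rw [e3] at hstep
      linarith
    · have hxA' : x ∉ h.toFinset := fun hc => hxA (List.mem_toFinset.1 hc)
      have e2 : ((insert x X.toFinset) \ h.toFinset).card =
          (X.toFinset \ insert x h.toFinset).card + 1 := by
        rw [Finset.insert_sdiff_of_notMem _ hxA']
        have : insert x (X.toFinset \ h.toFinset) = insert x (X.toFinset \ insert x h.toFinset) := by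
          ext y
          simp only [Finset.mem_insert, Finset.mem_sdiff]
          tauto
        rw [this, Finset.card_insert_of_notMem (by simp)]
      rw [e2]
      have e3 : Real.logb 2 (wg n h x) = -(2 * Real.logb 2 n) := by
        unfold wg
        rw [if_neg hxA, logb_inv_sq (by linarith)]
      rw [e3] at hstep
      push_cast
      linarith

theorem wt_const (c : ℝ) (S : Tr) : wt (fun _ => c) S = (keys S).length * c := by
  rw [wt_eq, List.map_const', List.sum_replicate, nsmul_eq_mul]

theorem main : SWs := by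
  intro T X hb hT hX
  have hn : 1 ≤ (keys T).length := by
    cases T with
    | nil => exact absurd rfl hT
    | node a l r => simp only [keys, List.length_append, List.length_cons]; omega
  set n := (keys T).length with hndef
  have hn' : (1 : ℝ) ≤ n := by exact_mod_cast hn
  have hL : (0 : ℝ) ≤ Real.logb 2 n := Real.logb_nonneg (by norm_num) hn'
  have h1 := run hn (K := keys T) rfl hb X T [] rfl (by simp) hX
  have hkr := runS_keys X T hb hX
  -- the start
  have h2 : psi (wg n []) T ≤ 0 := by
    have e1 : wg n [] = fun _ => 1 / (n : ℝ) ^ 2 := by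
      funext a; simp [wg]
    have hw : wt (wg n []) T ≤ 1 := by
      rw [e1, wt_const, ← hndef]
      have : (n : ℝ) * (1 / (n : ℝ) ^ 2) = 1 / n := by field_simp
      rw [this, div_le_one (by linarith)]
      exact hn'
    cases T with
    | nil => simp [psi]
    | node a l r =>
      have hp := wg_pos hn []
      simp only [wt] at hw
      have q1 := hp a
      have q2 := wt_nonneg hp l
      have q3 := wt_nonneg hp r
      have q4 := pot_nonpos hp l (by linarith)
      have q5 := pot_nonpos hp r (by linarith)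
      simp only [psi]
      linarith
  -- the end
  have h3 : (n : ℝ) * (-(2 * Real.logb 2 n)) ≤ psi (wg n (X.reverse ++ [])) (runS T X) := by
    have := psi_lower (w := wg n (X.reverse ++ [])) (wg_pos hn _)
      (β := -(2 * Real.logb 2 n)) (by linarith) (runS T X) (by
        intro a ha
        rw [hkr] at ha
        refine wg_lower hn (K := keys T) rfl ?_ ha
        intro y hy
        simp only [List.append_nil, List.mem_reverse] at hy
        exact hX y hy)
    rw [hkr] at this
    exact this
  have h4 : ((X.toFinset \ ([] : List ℕ).toFinset).card : ℝ) ≤ n := by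
    have : (X.toFinset \ ([] : List ℕ).toFinset).card ≤ n := by
      refine le_trans (Finset.card_le_card (t := (keys T).toFinset) ?_) (List.toFinset_card_le _)
      intro y hy
      rw [Finset.mem_sdiff, List.mem_toFinset] at hy
      rw [List.mem_toFinset]
      exact hX y hy.1
    exact_mod_cast this
  have h5 : ((X.toFinset \ ([] : List ℕ).toFinset).card : ℝ) * Real.logb 2 n ≤
      n * Real.logb 2 n := mul_le_mul_of_nonneg_right h4 hL
  nlinarith

end Pool.Agent.Y232.SP.WS
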